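import Mathlib
import Pool.Agent.Run7.h595.CM.Neg

set_option autoImplicit false

/-!
# Negative curves do not contain compositions of systems

A system is a multiset of multiplicities at general points of the complex projective plane. It is
`Critical D` if its number of conditions is between those of one point of multiplicity `D` and of
one point of multiplicity `D + 1`, and if it is non-special in the two degrees `D - 1` and `D`.
Uniform systems (`N` points of the same multiplicity) with `N = 1`, `N = 21` or `N ≥ 37` are critical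
(last part of the theorem). A system is `Composite a D` if
* it is the union of `a` systems which are `Critical D` (no condition on their multiplicities), where `a` is `4 ^ (k + 1)`, `9 * 4 ^ k` or
  `13 * 4 ^ k`, or divisible by four and at least `144`, or at least `200`, or
* it is the union of `a - B` points of multiplicity `D` and `B` systems which are `Critical D`, where
  `a ≥ 37`, `D ≥ (a + 6) / 2` and `B < 7 √a / 6 - c / 2 - 9 / 8` or `B ≤ a / 4 - c - 2 √a / 3 - 23 / 8`,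
  `c = 0, 5, 2, 3` for `a ≡ 0, 1, 2, 3` modulo four.

Let `P 1, …, P s` be very general points of the complex projective plane, let `C` be the strict
transform of an irreducible plane curve of degree `d` with multiplicities `μ i` at the points, let `T`
be a set of points and let `v i ≤ μ i` for `i ∈ T`. Suppose that the system `v` on `T` is
`Composite a D`, and let `x ≥ 3` be a real number with
`(a - x ^ 2) D ^ 2 ≥ 3 x (x - 1) D + 2 x ^ 2` (so `x` can be close to `√a` for large `D`; `x = 3` is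
possible if `(a - 9) D ^ 2 ≥ 18 (D + 1)`, in particular if `a ≥ 45`). Then
`C ^ 2 ≥ (1 - 3 / x) ∑_T v - (∑ μ ^ 2 - ∑_T v ^ 2)`.
In particular `C ^ 2 < 0` is impossible if `∑ μ ^ 2 - ∑_T v ^ 2 ≤ (1 - 3 / x) ∑_T v`, for instance if
the multiplicities `μ` themselves form a composite system.
-/

namespace Pool.Agent.Results.MP_d3e5c7_ag.CompositionPart

open MvPolynomial

/-- The homogeneous ideal of the point `(p 0 : p 1 : 1)`. -/
noncomputable def ptIdeal (p : Fin 2 → ℂ) : Ideal (MvPolynomial (Fin 3) ℂ) :=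
  Ideal.span ({X 0 - C (p 0) * X 2, X 1 - C (p 1) * X 2} : Set (MvPolynomial (Fin 3) ℂ))

/-- The curve `F = 0` has multiplicity `m` at the point `(p 0 : p 1 : 1)`. -/
def HasMult (F : MvPolynomial (Fin 3) ℂ) (p : Fin 2 → ℂ) (m : ℕ) : Prop :=
  F ∈ ptIdeal p ^ m ∧ F ∉ ptIdeal p ^ (m + 1)

/-- The self-intersection of the class `d H - ∑ μ i E i`. -/
noncomputable def selfInt {s : ℕ} (d : ℕ) (μ : Fin s → ℕ) : ℝ :=
  (d : ℝ) ^ 2 - ∑ i, (μ i : ℝ) ^ 2

/-- Forms of degree `d` vanishing to order at least `w i` at the points `P i`. -/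
noncomputable def forms {n : ℕ} (P : Fin n → Fin 2 → ℂ) (d : ℕ) (w : Fin n → ℕ) :
    Submodule ℂ (MvPolynomial (Fin 3) ℂ) :=
  homogeneousSubmodule (Fin 3) ℂ d ⊓
    Submodule.restrictScalars ℂ (⨅ i : Fin n, ptIdeal (P i) ^ (w i))

/-- The multiset of the multiplicities. -/
def mults {n : ℕ} (w : Fin n → ℕ) : Multiset ℕ := Multiset.map w Finset.univ.val

/-- The number of conditions. -/
def conditions (v : Multiset ℕ) : ℕ := (v.map fun a => (a + 1).choose 2).sum

/-- The system of degree `d` with the multiplicities `v` at general points is non-special. -/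
def NonSpecialIn (d : ℕ) (v : Multiset ℕ) : Prop :=
  ∀ (n : ℕ) (w : Fin n → ℕ), mults w = v →
    ∃ F : MvPolynomial (Fin n × Fin 2) ℂ, F ≠ 0 ∧ ∀ P : Fin n → Fin 2 → ℂ,
      eval (fun ij : Fin n × Fin 2 => P ij.1 ij.2) F ≠ 0 →
      Module.finrank ℂ ↥(forms P d w) = (d + 2).choose 2 - ∑ i, (w i + 1).choose 2

/-- `v` is non-special in the degrees `D - 1` and `D`, and its number of conditions is between those
of a point of multiplicity `D` and of a point of multiplicity `D + 1`. -/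
def Critical (D : ℕ) (v : Multiset ℕ) : Prop :=
  1 ≤ D ∧ (D + 1).choose 2 ≤ conditions v ∧ conditions v ≤ (D + 2).choose 2 ∧
    NonSpecialIn (D - 1) v ∧ NonSpecialIn D v

/-- The numbers of systems. -/
def Number (a : ℕ) : Prop :=
  200 ≤ a ∨ (144 ≤ a ∧ 4 ∣ a) ∨ ∃ k, a = 4 ^ (k + 1) ∨ a = 9 * 4 ^ k ∨ a = 13 * 4 ^ k

/-- `0, 5, 2, 3` for `n ≡ 0, 1, 2, 3` modulo four. -/
def spare (n : ℕ) : ℕ := if n % 4 = 1 then 5 else n % 4

/-- The union of `a` systems which are `Critical D`; in the second case all but `B` of them are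
points of multiplicity `D`. -/
def Composite (a D : ℕ) (v : Multiset ℕ) : Prop :=
  (Number a ∧ ∃ V : Fin a → Multiset ℕ, (∀ i, Critical D (V i)) ∧ v = ∑ i, V i) ∨
    (37 ≤ a ∧ a + 6 ≤ 2 * D ∧ ∃ B : ℕ, B ≤ a ∧
      ((B : ℝ) + (spare a : ℝ) / 2 + 9 / 8 < 7 * √(a : ℝ) / 6 ∨
        (B : ℝ) + spare a + 2 * √(a : ℝ) / 3 + 23 / 8 ≤ (a : ℝ) / 4) ∧
      ∃ V : Fin B → Multiset ℕ, (∀ i, Critical D (V i)) ∧
        v = ∑ i, V i + Multiset.replicate (a - B) D)

theorem crit_iff {D : ℕ} {v : Multiset ℕ} : Critical D v ↔ Pool.Agent.Run7.h595.CM.Crit D v :=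
  Pool.Agent.Run7.h595.CM.CritG_iff
    (fun d v => Pool.Agent.Run7.h595.CM.SM_iff (K := ℂ) (d := d) (v := v))

theorem comp_of {a D : ℕ} {v : Multiset ℕ} (h : Composite a D v) :
    Pool.Agent.Run7.h595.CM.Comp a D v := by
  rcases h with ⟨ha, V, hV, rfl⟩ | ⟨ha, hD, B, hB, hc, V, hV, rfl⟩
  · exact Pool.Agent.Run7.h595.CM.comp_of_union ha V fun i => crit_iff.1 (hV i)
  · exact Pool.Agent.Run7.h595.CM.comp_of_base ha hB hD V (fun i => crit_iff.1 (hV i)) hc

theorem result :
    (∀ s : ℕ, ∃ G : ℕ → MvPolynomial (Fin s × Fin 2) ℂ, (∀ j, G j ≠ 0) ∧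
      ∀ P : Fin s → Fin 2 → ℂ,
        (∀ j, MvPolynomial.eval (fun ij : Fin s × Fin 2 => P ij.1 ij.2) (G j) ≠ 0) →
        ∀ (d : ℕ) (μ : Fin s → ℕ) (F : MvPolynomial (Fin 3) ℂ), Irreducible F →
          F.IsHomogeneous d → (∀ i, HasMult F (P i) (μ i)) →
          ∀ (T : Finset (Fin s)) (v : Fin s → ℕ), (∀ i ∈ T, v i ≤ μ i) →
            ∀ (a D : ℕ) (x : ℝ), Composite a D (Multiset.map v T.val) → 3 ≤ x →
              3 * x * (x - 1) * D + 2 * x ^ 2 ≤ ((a : ℝ) - x ^ 2) * (D : ℝ) ^ 2 →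
              (1 - 3 / x) * ∑ i ∈ T, (v i : ℝ) - (∑ i, (μ i : ℝ) ^ 2 - ∑ i ∈ T, (v i : ℝ) ^ 2) ≤
                selfInt d μ ∧
              (∑ i, (μ i : ℝ) ^ 2 - ∑ i ∈ T, (v i : ℝ) ^ 2 ≤ (1 - 3 / x) * ∑ i ∈ T, (v i : ℝ) →
                ¬ selfInt d μ < 0)) ∧
    (∀ N m D : ℕ, 1 ≤ m → (N = 1 ∨ N = 21 ∨ 37 ≤ N ∨ Number N) → 1 ≤ D →
      (D + 1).choose 2 ≤ N * (m + 1).choose 2 → N * (m + 1).choose 2 ≤ (D + 2).choose 2 →
      Critical D (Multiset.replicate N m)) := by
  classical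
  refine ⟨fun s => ?_, fun N m D hm hN hD h1 h2 =>
    crit_iff.2 (Pool.Agent.Run7.h595.CM.crit_uniform hm hN hD h1 h2)⟩
  obtain ⟨G, hG, hG'⟩ := Pool.Agent.Run7.h866.NU.exists_familyC (Fin s × Fin 2)
  refine ⟨G, hG, fun P hP d μ F hirr hFd hmu T v hv a D x hT hx hxD => ?_⟩
  have hind := hG' _ hP
  let e : T ≃ Fin T.card := T.equivFin
  let f : Fin T.card × Fin 2 → Fin s × Fin 2 := fun q => ((e.symm q.1 : T), q.2)
  have hf : Function.Injective f := by
    rintro ⟨a, b⟩ ⟨a', b'⟩ h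
    have h1 : ((e.symm a : T) : Fin s) = (e.symm a' : T) := congrArg Prod.fst h
    have h2 : b = b' := congrArg Prod.snd h
    have h3 := e.symm.injective (Subtype.ext h1)
    rw [h2, h3]
  have hind' := hind.comp f hf
  have e1 : ∀ {M : Type} [AddCommMonoid M] (g : ℕ → M),
      ∑ a : Fin T.card, g (v (e.symm a : T)) = ∑ i ∈ T, g (v i) := by
    intro M _ g
    rw [← Finset.sum_coe_sort T (fun i => g (v i))]
    exact Equiv.sum_comp e.symm (fun i : T => g (v i))
  have hmu' : Pool.Agent.Run7.h595.CM.mu (fun a : Fin T.card => v (e.symm a : T)) =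
      Multiset.map v T.val := by
    rw [Pool.Agent.Run7.h595.CM.mu_eq]
    unfold Pool.Agent.TH641.UM.ms
    rw [e1 (fun z => ({z} : Multiset ℕ)), Finset.sum_eq_multiset_sum,
      ← Multiset.sum_map_singleton (Multiset.map v T.val), Multiset.map_map]
    rfl
  have h1 := Pool.Agent.Run7.h595.CM.comp_curve (w := fun a : Fin T.card => v (e.symm a : T))
    (P := fun a => P (e.symm a : T)) hx hxD (by rw [hmu']; exact comp_of hT) hind' hFd
    hirr.ne_zero (fun a => Ideal.pow_le_pow_right (hv _ (e.symm a).2) (hmu _).1)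
  have e2 := e1 (fun z => (z : ℝ) ^ 2)
  have e3 := e1 (fun z => (z : ℝ))
  rw [e2, e3] at h1
  have h2 : (1 - 3 / x) * ∑ i ∈ T, (v i : ℝ) -
      (∑ i, (μ i : ℝ) ^ 2 - ∑ i ∈ T, (v i : ℝ) ^ 2) ≤ selfInt d μ := by
    unfold selfInt
    linarith
  exact ⟨h2, fun h3 => by linarith⟩

end Pool.Agent.Results.MP_d3e5c7_ag.CompositionPart
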