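import Pool.Agent.Run7.h330.Orb
import Pool.Agent.TH167.SH.Conv
import Pool.Agent.TH167.SH.Fam

set_option autoImplicit false

/-!
# Negative curves: the intersection numbers with `(-1)`-curves and with roots

Let `P 1, …, P s`, `s ≥ 4`, be very general points of the complex projective plane and let `C` be an
irreducible curve with `C ^ 2 = -k < 0` on the blow-up which is not a `(-1)`-curve.

* For every `(-1)`-curve `E` (in particular for the exceptional curves `E i`) the number `C E` is `0`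
  or at least `4` and at least `k + 1`, or `k = 1` and `C E = 1`.
* For every real root `a`, that is for every class in the orbit of `E i - E j` under the reflections
  in the classes `H - E i - E j - E l`, the number `C a` is `0` or `|C a| ≥ √k`.
* All classes in the orbit of the class of `C` have these properties, and at least ten of their
  multiplicities are at least four.

The proof: all classes in the orbit are classes of irreducible curves, so two different ones have a
nonnegative intersection number; and a strict form of the inequality of Xu and Ein-Lazarsfeld: if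
`k = w i ≥ 2` then the curve does not change when the point `P i` moves along a curve, which would
consist of multiple points of `C`.
-/

namespace Pool.Agent.Results.MP_d3e5c7_ag.MeetingExceptionalCurves

open MvPolynomial Pool.Agent.TH167 Pool.Agent.TH167.SHDefs

/-- The intersection form of classes `(d; w)`, that is `d H - ∑ w i E i`. -/
def form {s : ℕ} (a b : ℤ × (Fin s → ℤ)) : ℤ := a.1 * b.1 - ∑ l, a.2 l * b.2 l

/-- The class of a plane curve of degree `d` with the multiplicities `w i`. -/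
def curveClass {s : ℕ} (d : ℕ) (w : Fin s → ℕ) : ℤ × (Fin s → ℤ) := (d, fun l => w l)

/-- The reflection in the class `H - E (i 0) - E (i 1) - E (i 2)`. -/
def reflect {s : ℕ} (i : Fin 3 → Fin s) (a : ℤ × (Fin s → ℤ)) : ℤ × (Fin s → ℤ) :=
  (a.1 + (a.1 - a.2 (i 0) - a.2 (i 1) - a.2 (i 2)),
    fun l => a.2 l + if l = i 0 ∨ l = i 1 ∨ l = i 2 then a.1 - a.2 (i 0) - a.2 (i 1) - a.2 (i 2)
      else 0)

/-- Finitely many of these reflections carry `a` to `b`. -/
def SameOrbit {s : ℕ} (a b : ℤ × (Fin s → ℤ)) : Prop :=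
  Relation.ReflTransGen
    (fun a b : ℤ × (Fin s → ℤ) => ∃ i : Fin 3 → Fin s, Function.Injective i ∧ b = reflect i a) a b

/-- `a` is in the orbit of a class `E j - E i`, whose coordinates are `1` at `i`, `-1` at `j` and `0`
elsewhere. -/
def IsRoot {s : ℕ} (a : ℤ × (Fin s → ℤ)) : Prop :=
  ∃ i j : Fin s, SameOrbit ((0 : ℤ), fun l => (if l = i then (1 : ℤ) else 0) -
    if l = j then 1 else 0) a

/-- The possible intersection numbers with a `(-1)`-curve. -/
def Allowed (k m : ℤ) : Prop := m = 0 ∨ (m = 1 ∧ k = 1) ∨ (4 ≤ m ∧ k + 1 ≤ m)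

theorem result (r : ℕ) : ∃ Z : ℕ → MvPolynomial (Fin (r + 4) × Fin 2) ℂ, (∀ n, Z n ≠ 0) ∧
    ∀ P : Fin (r + 4) → Fin 2 → ℂ,
      (∀ n, MvPolynomial.eval (fun ij : Fin (r + 4) × Fin 2 => P ij.1 ij.2) (Z n) ≠ 0) →
      ∀ (d : ℕ) (w : Fin (r + 4) → ℕ) (C : MvPolynomial (Fin 3) ℂ) (k : ℤ),
        Curve P C d w → inter d w d w = -k → 0 < k → ¬ MinusOne P C d w →
        -- (1) the `(-1)`-curves: the strict transforms of plane curves, and the exceptional curves
        (∀ (e : ℕ) (u : Fin (r + 4) → ℕ) (E : MvPolynomial (Fin 3) ℂ), MinusOne P E e u →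
          Allowed k (inter d w e u)) ∧
        (∀ i, Allowed k (w i)) ∧
        -- (2) the real roots
        (∀ a : ℤ × (Fin (r + 4) → ℤ), IsRoot a →
          form (curveClass d w) a = 0 ∨ k ≤ form (curveClass d w) a ^ 2) ∧
        -- (3) the orbit
        ∀ b : ℤ × (Fin (r + 4) → ℤ), SameOrbit (curveClass d w) b →
          ∃ (d' : ℕ) (w' : Fin (r + 4) → ℕ) (C' : MvPolynomial (Fin 3) ℂ), b = curveClass d' w' ∧
            Curve P C' d' w' ∧ inter d' w' d' w' = -k ∧ ¬ MinusOne P C' d' w' ∧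
            (∀ i, Allowed k (w' i)) ∧
            10 ≤ (Finset.univ.filter fun i => 4 ≤ w' i).card ∧
            (∀ i j, i ≠ j → w' i + w' j ≤ d') ∧
            (∀ i j, w' i = w' j ∨ k ≤ ((w' i : ℤ) - w' j) ^ 2) ∧
            ∀ i j l, i ≠ j → i ≠ l → j ≠ l → (d' : ℤ) - w' i - w' j - w' l = 0 ∨
              k ≤ ((d' : ℤ) - w' i - w' j - w' l) ^ 2 := by
  obtain ⟨Z, hZ, h⟩ := SH.exists_fam (Fin (r + 4) × Fin 2)
  refine ⟨Z, hZ, fun P hP0 d w C k hC hCk hk hne => ?_⟩
  have hP := (h _).1 hP0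
  obtain ⟨h1, h2, h3⟩ := SH.curve_iff.1 hC
  have hne' : ¬ (SH.ip d w d w = -1 ∧ SH.kk d w = 1) := fun h0 =>
    hne ⟨hC, by rw [SH.inter_eq, h0.1], by rw [SH.interK_eq, h0.2]⟩
  rw [SH.inter_eq] at hCk
  have hI : Pool.Agent.R355.NegOrb.Irr P d w := ⟨⟨C, h1, h2, h3⟩, hne'⟩
  have hmult : ∀ {d' : ℕ} {w' : Fin (r + 4) → ℕ}, Pool.Agent.Run7.h330.Orb.Facts k d' w' →
      ∀ i, Allowed k (w' i) := by
    intro d' w' hF i
    rcases hF.mult i with h0 | ⟨h0, h0'⟩ | ⟨h0, h0'⟩
    · left
      rw [h0]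
      rfl
    · right
      left
      exact ⟨by rw [h0]; rfl, h0'⟩
    · right
      right
      exact ⟨by exact_mod_cast h0, h0'⟩
  refine ⟨fun e u E hE => ?_, hmult (Pool.Agent.Run7.h330.Orb.facts hP hI hk hCk), fun a ha => ?_,
    fun b hb => ?_⟩
  · rw [SH.inter_eq]
    exact Pool.Agent.Run7.h330.Orb.exc_facts hP hI hk hCk (SH.minusOne_iff.1 hE)
  · obtain ⟨i, j, hij⟩ := ha
    have h4 := Pool.Agent.Run7.h330.Orb.root_facts hP hI hk hCk (i := i) (j := j) (a := a) hij
    have h5 : form (curveClass d w) a = Pool.Agent.R355.NegOrb.bil a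
        (Pool.Agent.TH442.NF.cls d w) := by
      rw [Pool.Agent.Run7.h330.Orb.bil_comm]
      rfl
    rw [h5]
    exact h4
  · obtain ⟨d', w', h4, h5, h6, h7⟩ := Pool.Agent.Run7.h330.Orb.orbit_facts hP hI hk hCk (b := b) hb
    obtain ⟨C', a1, a2, a3⟩ := h5.ex
    have h8 : ¬ MinusOne P C' d' w' := fun h0 => by
      have h9 := SH.minusOne_iff.1 h0
      exact h5.ne ⟨SH.self_iff.1 h9.self, SH.can_iff.1 h9.can⟩
    exact ⟨d', w', C', h4, SH.curve_iff.2 ⟨a1, a2, a3⟩, by rw [SH.inter_eq]; exact h6, h8, hmult h7,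
      h7.ten, h7.pair, h7.swap, h7.quad⟩

end Pool.Agent.Results.MP_d3e5c7_ag.MeetingExceptionalCurves
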